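import Mathlib

/-!
# MP_78b302_al: a lattice variety given by an identity in three variables which is not given by
# its symmetric identities in at most three variables

`L9` is the Boolean lattice with three atoms in which one coatom `c` is replaced by a chain
`c* < c`. It is generated by its three coatoms `a, b, c`, and by no other three of its elements.
The identity `e0`, `(a' ⊓ z) ⊔ (b' ⊓ z) ≈ z ⊓ (a' ⊔ b')` with `a' = (x ⊓ y) ⊔ (x ⊓ z)` and
`b' = (y ⊓ x) ⊔ (y ⊓ z)`, fails in `L9` and holds in the proper sublattices of `L9` and in the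
quotient of `L9` by its monolith, the Boolean lattice with three atoms. A symmetric term, evaluated
at the three coatoms, has a value which the monolith does not identify with another element.
-/

namespace Pool.Agent.Results.MP_78b302_al.CoatomDoubling

/-- Lattice terms in the variables `x_i`, `i : Fin n`. -/
inductive Term (n : ℕ) : Type
  | var : Fin n → Term n
  | sup : Term n → Term n → Term n
  | inf : Term n → Term n → Term n

variable {n : ℕ}

/-- The value of a term in a lattice. -/
def Term.eval {M : Type} [Lattice M] (v : Fin n → M) : Term n → M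
  | .var i => v i
  | .sup a b => a.eval v ⊔ b.eval v
  | .inf a b => a.eval v ⊓ b.eval v

/-- The term `t_σ`: each variable `x_i` is replaced by `x_(σ i)`. -/
def Term.perm (σ : Equiv.Perm (Fin n)) : Term n → Term n
  | .var i => .var (σ i)
  | .sup a b => .sup (a.perm σ) (b.perm σ)
  | .inf a b => .inf (a.perm σ) (b.perm σ)

/-- `t` and `s` are equal in the free lattice `FL(n)`: they have the same value in every
lattice. -/
def FreeEq (t s : Term n) : Prop :=
  ∀ (M : Type) [Lattice M] (v : Fin n → M), t.eval v = s.eval v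

/-- A symmetric term. -/
def Term.IsSymm (t : Term n) : Prop := ∀ σ : Equiv.Perm (Fin n), FreeEq t (t.perm σ)

/-- A lattice identity `lhs ≈ rhs` of the given arity. -/
structure Identity where
  arity : ℕ
  lhs : Term arity
  rhs : Term arity

/-- The identity holds in the lattice `M`. -/
def Identity.Holds (e : Identity) (M : Type) [Lattice M] : Prop :=
  ∀ v : Fin e.arity → M, e.lhs.eval v = e.rhs.eval v

/-- A symmetric identity: both sides are symmetric terms. -/
def Identity.IsSymm (e : Identity) : Prop := e.lhs.IsSymm ∧ e.rhs.IsSymm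

/-- `M` belongs to the variety defined by the set `E` of identities. -/
def InVariety (E : Set Identity) (M : Type) [Lattice M] : Prop := ∀ e ∈ E, e.Holds M

/-- The symmetric identities of arity at most `k` which hold in the variety defined by `E`. -/
def SymPart (E : Set Identity) (k : ℕ) : Set Identity :=
  {e | e.arity ≤ k ∧ e.IsSymm ∧ ∀ (M : Type) [Lattice M], InVariety E M → e.Holds M}

/-! ### General facts -/

theorem eval_map {M N : Type} [Lattice M] [Lattice N] (h : LatticeHom M N) (v : Fin n → M)
    (t : Term n) : h (t.eval v) = t.eval (fun i => h (v i)) := by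
  induction t with
  | var i => rfl
  | sup a b ha hb => simp only [Term.eval, map_sup, ha, hb]
  | inf a b ha hb => simp only [Term.eval, map_inf, ha, hb]

theorem eval_perm {M : Type} [Lattice M] (σ : Equiv.Perm (Fin n)) (v : Fin n → M)
    (t : Term n) : (t.perm σ).eval v = t.eval (fun i => v (σ i)) := by
  induction t with
  | var i => rfl
  | sup a b ha hb => simp only [Term.perm, Term.eval, ha, hb]
  | inf a b ha hb => simp only [Term.perm, Term.eval, ha, hb]

theorem eval_pi {ι : Type} (v : Fin n → ι → Bool) (t : Term n) (i : ι) :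
    t.eval v i = t.eval (fun j => v j i) := by
  induction t with
  | var i => rfl
  | sup a b ha hb => simp only [Term.eval, Pi.sup_apply, ha, hb]
  | inf a b ha hb => simp only [Term.eval, Pi.inf_apply, ha, hb]

/-! ### The nine-element lattice -/

/-- The nine-element lattice: `0` is the top, `8` the bottom, `1`, `2`, `3` are the coatoms,
`4 < 3`, and `5 = 1 ⊓ 2`, `6 = 1 ⊓ 3 = 1 ⊓ 4`, `7 = 2 ⊓ 3 = 2 ⊓ 4` are the atoms. -/
def L9 : Type := Fin 9

instance : Fintype L9 := inferInstanceAs (Fintype (Fin 9))
instance : DecidableEq L9 := inferInstanceAs (DecidableEq (Fin 9))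

/-- An element of `L9`. -/
def mk (i : Fin 9) : L9 := i

/-- The table of meets. -/
def mt : List ℕ :=
  [0, 1, 2, 3, 4, 5, 6, 7, 8,
   1, 1, 5, 6, 6, 5, 6, 8, 8,
   2, 5, 2, 7, 7, 5, 8, 7, 8,
   3, 6, 7, 3, 4, 8, 6, 7, 8,
   4, 6, 7, 4, 4, 8, 6, 7, 8,
   5, 5, 5, 8, 8, 5, 8, 8, 8,
   6, 6, 8, 6, 6, 8, 6, 8, 8,
   7, 8, 7, 7, 7, 8, 8, 7, 8,
   8, 8, 8, 8, 8, 8, 8, 8, 8]

/-- The table of joins. -/
def jt : List ℕ :=
  [0, 0, 0, 0, 0, 0, 0, 0, 0,
   0, 1, 0, 0, 0, 1, 1, 0, 1,
   0, 0, 2, 0, 0, 2, 0, 2, 2,
   0, 0, 0, 3, 3, 0, 3, 3, 3,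
   0, 0, 0, 3, 4, 0, 4, 4, 4,
   0, 1, 2, 0, 0, 5, 1, 2, 5,
   0, 1, 0, 3, 4, 1, 6, 4, 6,
   0, 0, 2, 3, 4, 2, 4, 7, 7,
   0, 1, 2, 3, 4, 5, 6, 7, 8]

instance : Max L9 := ⟨fun i j => mk (Fin.ofNat 9 (jt.getD (9 * i.val + j.val) 0))⟩
instance : Min L9 := ⟨fun i j => mk (Fin.ofNat 9 (mt.getD (9 * i.val + j.val) 0))⟩

instance : Lattice L9 := Lattice.mk' (by decide +kernel) (by decide +kernel) (by decide +kernel)
  (by decide +kernel) (by decide +kernel) (by decide +kernel)

/-- The identity. -/
def e0 : Identity where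
  arity := 3
  lhs := .sup (.inf (.sup (.inf (.var 0) (.var 1)) (.inf (.var 0) (.var 2))) (.var 2))
    (.inf (.sup (.inf (.var 1) (.var 0)) (.inf (.var 1) (.var 2))) (.var 2))
  rhs := .inf (.var 2) (.sup (.sup (.inf (.var 0) (.var 1)) (.inf (.var 0) (.var 2)))
    (.sup (.inf (.var 1) (.var 0)) (.inf (.var 1) (.var 2))))

/-- The left-hand side of the identity. -/
def lh {M : Type} [Lattice M] (x y z : M) : M :=
  (((x ⊓ y) ⊔ (x ⊓ z)) ⊓ z) ⊔ (((y ⊓ x) ⊔ (y ⊓ z)) ⊓ z)

/-- The right-hand side of the identity. -/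
def rh {M : Type} [Lattice M] (x y z : M) : M :=
  z ⊓ (((x ⊓ y) ⊔ (x ⊓ z)) ⊔ ((y ⊓ x) ⊔ (y ⊓ z)))

theorem e0_holds_iff (M : Type) [Lattice M] :
    e0.Holds M ↔ ∀ x y z : M, lh x y z = rh x y z := by
  constructor
  · intro h x y z
    exact h ![x, y, z]
  · intro h (v : Fin 3 → M)
    exact h (v 0) (v 1) (v 2)

theorem e0_fails : ¬ e0.Holds L9 := by
  rw [e0_holds_iff]
  intro h
  exact absurd (h (mk 1) (mk 2) (mk 3)) (by decide +kernel)

/-! ### Proper sublattices -/

/-- The elements of `L9` in the mask `m`. -/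
def inm (m : ℕ) (x : L9) : Bool := Nat.testBit m x.val

/-- The masks of the five maximal proper sublattices. -/
def masks : List ℕ := [511 - 4 - 128, 511 - 2 - 64, 511 - 4 - 32, 511 - 2 - 32, 511 - 8]

theorem masks_sup : ∀ m ∈ masks, ∀ x y : L9, inm m x = true → inm m y = true →
    inm m (x ⊔ y) = true := by decide +kernel

theorem masks_inf : ∀ m ∈ masks, ∀ x y : L9, inm m x = true → inm m y = true →
    inm m (x ⊓ y) = true := by decide +kernel

theorem masks_e0 : ∀ m ∈ masks, ∀ x y z : L9, inm m x = true → inm m y = true →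
    inm m z = true → lh x y z = rh x y z := by decide +kernel

/-- The sublattice of a mask. -/
def sub (m : ℕ) (hm : m ∈ masks) : Sublattice L9 where
  carrier := {x | inm m x = true}
  supClosed' := fun _ hx _ hy => masks_sup m hm _ _ hx hy
  infClosed' := fun _ hx _ hy => masks_inf m hm _ _ hx hy

theorem sub_holds (m : ℕ) (hm : m ∈ masks) : e0.Holds (sub m hm) := by
  rw [e0_holds_iff]
  intro x y z
  apply Subtype.ext
  exact masks_e0 m hm x.1 y.1 z.1 x.2 y.2 z.2

theorem case_sub {f g : Term n} (hfg : ∀ (M : Type) [Lattice M], InVariety {e0} M →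
    ∀ v : Fin n → M, f.eval v = g.eval v) (m : ℕ) (hm : m ∈ masks) (v : Fin n → L9)
    (hv : ∀ i, inm m (v i) = true) : f.eval v = g.eval v := by
  have h1 := hfg (sub m hm) (by
    intro e he
    rw [Set.mem_singleton_iff.mp he]
    exact sub_holds m hm) (fun i => ⟨v i, hv i⟩)
  have h2 := congrArg (sub m hm).subtype h1
  rw [eval_map, eval_map] at h2
  exact h2

/-! ### The quotient -/

/-- The atoms below an element. -/
def hb (x : L9) (i : Fin 3) : Bool :=
  ([[true, true, true], [false, true, true], [true, false, true], [true, true, false],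
    [true, true, false], [false, false, true], [false, true, false], [true, false, false],
    [false, false, false]].getD x.val []).getD i.val false

theorem hb_sup : ∀ x y : L9, ∀ i, hb (x ⊔ y) i = (hb x i ⊔ hb y i) := by decide +kernel

theorem hb_inf : ∀ x y : L9, ∀ i, hb (x ⊓ y) i = (hb x i ⊓ hb y i) := by decide +kernel

/-- The quotient map onto the Boolean lattice with three atoms. -/
def hom : LatticeHom L9 (Fin 3 → Bool) where
  toFun := hb
  map_sup' := fun x y => funext (hb_sup x y)
  map_inf' := fun x y => funext (hb_inf x y)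

theorem bool_e0 : ∀ x y z : Bool, lh x y z = rh x y z := by decide +kernel

theorem pi_holds : e0.Holds (Fin 3 → Bool) := by
  rw [e0_holds_iff]
  intro x y z
  funext i
  exact bool_e0 (x i) (y i) (z i)

theorem hb_sep : ∀ x y : L9, (∀ i, hb x i = hb x 0) → (∀ i, hb x i = hb y i) → x = y := by
  decide +kernel

/-- The permutations of the three coatoms. -/
def IsGen (x y z : L9) : Prop :=
  x ∈ [mk 1, mk 2, mk 3] ∧ y ∈ [mk 1, mk 2, mk 3] ∧ z ∈ [mk 1, mk 2, mk 3] ∧
    x ≠ y ∧ x ≠ z ∧ y ≠ z

instance (x y z : L9) : Decidable (IsGen x y z) := by unfold IsGen; infer_instance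

theorem gen_perm : ∀ x y z : L9, IsGen x y z → ∀ i : Fin 3,
    ∃ σ : Equiv.Perm (Fin 3), ∀ j, hb (![x, y, z] j) i = hb (![x, y, z] (σ j)) 0 := by
  decide +kernel

theorem case_gen {f g : Term 3} (hf : f.IsSymm)
    (hfg : ∀ (M : Type) [Lattice M], InVariety {e0} M →
    ∀ v : Fin 3 → M, f.eval v = g.eval v) (v : Fin 3 → L9)
    (hv : IsGen (v 0) (v 1) (v 2)) : f.eval v = g.eval v := by
  have hv3 : v = ![v 0, v 1, v 2] := by
    funext i
    fin_cases i <;> rfl
  apply hb_sep
  · intro i
    obtain ⟨σ, hσ⟩ := gen_perm _ _ _ hv i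
    rw [← hv3] at hσ
    have h1 : hb (f.eval v) i = f.eval (fun j => hb (v j) i) := by
      have := congrFun (eval_map hom v f) i
      rw [eval_pi] at this
      exact this
    have h2 : hb (f.eval v) 0 = f.eval (fun j => hb (v j) 0) := by
      have := congrFun (eval_map hom v f) 0
      rw [eval_pi] at this
      exact this
    rw [h1, h2, hf σ Bool (fun j => hb (v j) 0), eval_perm]
    congr 1
    funext j
    exact hσ j
  · intro i
    have h1 := eval_map hom v f
    have h2 := eval_map hom v g
    have h3 := hfg (Fin 3 → Bool) (by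
      intro e he
      rw [Set.mem_singleton_iff.mp he]
      exact pi_holds) (fun i => hom (v i))
    rw [h3, ← h2] at h1
    exact congrFun h1 i

/-! ### The covering -/

theorem cover : ∀ x y z : L9, IsGen x y z ∨
    ∃ m ∈ masks, inm m x = true ∧ inm m y = true ∧ inm m z = true := by decide +kernel

theorem nogen : ∀ x y : L9, ¬ IsGen x y y := by decide +kernel

theorem key {f g : Term n} (hn : n ≤ 3) (hf : f.IsSymm)
    (hfg : ∀ (M : Type) [Lattice M], InVariety {e0} M →
    ∀ v : Fin n → M, f.eval v = g.eval v) (v : Fin n → L9) : f.eval v = g.eval v := by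
  interval_cases n
  · exact case_sub hfg (511 - 8) (by decide) v (fun i => i.elim0)
  · rcases cover (v 0) (v 0) (v 0) with h | ⟨m, hm, h1, -, -⟩
    · exact absurd h (nogen _ _)
    · exact case_sub hfg m hm v (fun i => by fin_cases i; exact h1)
  · rcases cover (v 0) (v 1) (v 1) with h | ⟨m, hm, h1, h2, -⟩
    · exact absurd h (nogen _ _)
    · exact case_sub hfg m hm v (fun i => by fin_cases i; exacts [h1, h2])
  · rcases cover (v 0) (v 1) (v 2) with h | ⟨m, hm, h1, h2, h3⟩
    · exact case_gen hf hfg v h
    · exact case_sub hfg m hm v (fun i => by fin_cases i; exacts [h1, h2, h3])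

/-- **Main theorem.** There are an identity `e` in three variables and a lattice `L` with nine
elements such that `e` fails in `L`, but every symmetric identity in at most three variables which
holds in the variety defined by `e` also holds in `L`. So Question 1 has a negative answer: it is
not true that, for all `k`, every lattice variety defined by identities of arity at most `k` is
defined by its symmetric identities of arity at most `k`. -/
theorem result :
    (∃ e : Identity, e.arity = 3 ∧ ∃ (L : Type) (_ : Lattice L), Nat.card L = 9 ∧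
      ¬ InVariety {e} L ∧ InVariety (SymPart {e} 3) L) ∧
    ¬ ∀ (k : ℕ) (E : Set Identity), (∀ e ∈ E, e.arity ≤ k) →
      ∀ (M : Type) [Lattice M], InVariety E M ↔ InVariety (SymPart E k) M := by
  have h1 : ¬ InVariety {e0} L9 := fun h => e0_fails (h e0 rfl)
  have h2 : InVariety (SymPart {e0} 3) L9 := by
    intro e he v
    exact key he.1 he.2.1.1 (fun M _ hM v => he.2.2 M hM v) v
  refine ⟨⟨e0, rfl, L9, inferInstance, ?_, h1, h2⟩, ?_⟩
  · rw [Nat.card_eq_fintype_card]
    rfl
  · intro h
    exact h1 ((h 3 {e0} (fun e he => by rw [Set.mem_singleton_iff.mp he]; rfl) L9).mpr h2)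

end Pool.Agent.Results.MP_78b302_al.CoatomDoubling
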